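import Pool.Agent.MP_7cfdbb_an.Mg.Main

open Pool.Agent.MP_7cfdbb_an MeasureTheory

/-- For the determinantal point process with the Bergman kernel of the disc and every point `z` of
the disc, the best uniform radial-weight interpolation error at `z` is almost surely positive. -/
theorem Pool.Agent.Results.MP_7cfdbb_an.Positive.result :
    ∀ (P : Measure Conf), IsDPP P → ∀ z : ℂ, ‖z‖ < 1 → ∀ᵐ X ∂P, 0 < Delta P z X :=
  fun P hP z hz => main P hP z hz
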